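import Mathlib
import Pool.Agent.K9h50.PG.Fin

/-!
# The numbers `64 b ^ 2 + 9 = 8 d ^ 2 + 1` have only small common divisors

The numbers of the problem are `N_m = 8 d_m ^ 2 + 1 = 64 b_m ^ 2 + 9` with `d_m + b_m √8 = (3 + √8) ^ m`; the admissible
primes are the primes among them. We prove that for all `n < m`

  `gcd (N_m, N_n) ≤ 9 exp (7 √(m + n) + 7 √(m - n))`,

where `N_m` has the size `exp (3.52 m)`. (The factor `9` is needed: `9` divides `N_m` for all even `m`.) For two numbers
of this kind the Subspace theorem gives the bound `exp (ε m)` for large `m`, not effective. It follows that `N_m`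
divides a different term `N_n` only if `n ≥ (m - 1) ^ 2 / 22`; in particular an admissible prime `p = N_m` divides none of
the terms `N_n`, `m < n < (m - 1) ^ 2 / 22`.

Proof. `N_m = (1 + 2 β ^ m) (1 + 2 β ^ (-m))` with the unit `β = (3 + √8) ^ 2`. Modulo a common divisor `q` of `N_m` and
`N_n` which is prime to `3` there is a square root of `8` with `β ^ m = -2`; moreover `q` divides `x y` with divisors `x`,
`y` of `q` such that `β ^ n = -2` modulo `x` and `β ^ n = -1/2` modulo `y`. So `β ^ (m - n) = 1` modulo `x`, and the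
group generated by `β` modulo `x`, which contains `-2`, has at most `t = m - n` elements. By the pigeonhole principle
`β ^ a (-2) ^ c = 1` or `β ^ a = (-2) ^ c` modulo `x` for some `0 ≤ a, c ≤ √t`, not both zero, and `x` divides the norm
`4 ^ c + 1 - (-2) ^ c (β ^ a + β ^ (-a))`, which is not zero. The same holds for `y` with `t = m + n`.
-/

set_option autoImplicit false

namespace Pool.Agent.Results.MP_f53aaa_nt.CommonDivisors

/-- the solutions `(d_m, b_m)` of `d ^ 2 - 8 b ^ 2 = 1` in natural numbers -/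
def sol : ℕ → ℕ × ℕ
  | 0 => (1, 0)
  | m + 1 => (3 * (sol m).1 + 8 * (sol m).2, (sol m).1 + 3 * (sol m).2)

/-- `N_m = 8 d_m ^ 2 + 1` -/
def N (m : ℕ) : ℕ := 8 * (sol m).1 ^ 2 + 1

theorem sol_eq (m : ℕ) : sol m = Pool.Agent.K9h50.PG.sol m := by
  induction m with
  | zero => rfl
  | succ m ih => rw [sol, Pool.Agent.K9h50.PG.sol, ih]

theorem N_eq (m : ℕ) : N m = Pool.Agent.K9h50.PG.N m := by
  rw [N, Pool.Agent.K9h50.PG.N, sol_eq]

/-- **Common divisors of the numbers `64 b ^ 2 + 9 = 8 d ^ 2 + 1`.** -/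
theorem result :
    -- the numbers `N_m`
    (∀ m : ℕ, ((sol m).1 : ℝ) + ((sol m).2 : ℝ) * √8 = (3 + √8) ^ m ∧ N m = 64 * (sol m).2 ^ 2 + 9 ∧
      ((3 + √8) ^ m) ^ 2 ≤ (N m : ℝ)) ∧
    -- two terms have only small common divisors
    (∀ m n : ℕ, n < m → (Nat.gcd (N m) (N n) : ℝ) ≤
      9 * Real.exp (7 * √((m + n : ℕ) : ℝ) + 7 * √((m - n : ℕ) : ℝ))) ∧
    -- a term divides another term only if the index of the latter is much larger
    (∀ m n : ℕ, m ≠ n → N m ∣ N n → ((m : ℝ) - 1) ^ 2 ≤ 22 * n) := by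
  refine ⟨fun m => ⟨?_, ?_, ?_⟩, fun m n h => ?_, fun m n h h' => ?_⟩
  · rw [sol_eq]
    exact Pool.Agent.K9h50.PG.sol_real m
  · rw [N_eq, sol_eq]
    exact Pool.Agent.K9h50.PG.N_eq m
  · rw [N_eq]
    exact (Pool.Agent.K9h50.PG.N_ge m).1
  · rw [N_eq, N_eq]
    exact Pool.Agent.K9h50.PG.gcd_le m n h
  · rw [N_eq, N_eq] at h'
    exact Pool.Agent.K9h50.PG.dvd_index m n h h'

end Pool.Agent.Results.MP_f53aaa_nt.CommonDivisors
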