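import Mathlib
import Pool.Agent.K9h50.PG.Fin

/-!
# The numbers `64 b ^ 2 + 9 = 8 d ^ 2 + 1`: least common multiple and distinct prime divisors

The numbers of the problem are `N_m = 8 d_m ^ 2 + 1 = 64 b_m ^ 2 + 9` with `d_m + b_m √8 = (3 + √8) ^ m`; the admissible
primes are the primes among them. We prove that the least common multiple of the first `X` terms has nearly the size of
their product: for all `X`

  `|log lcm (N_1, ..., N_X) - X ^ 2 log (3 + √8)| ≤ 170 X ^ (3 / 2)`,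

and that one can choose distinct prime divisors `p_m` of the terms `N_m`, `m ≤ X`, with at most `16 X ^ (3 / 4)` exceptions.
So the first `X` terms together have at least `X - 16 X ^ (3 / 4)` prime divisors.

Proof. The sum of `log N_m`, `m ≤ X`, is larger than the logarithm of the least common multiple by
`∑ Λ(q) (c(q) - 1)`, where `c(q)` is the number of `m ≤ X` such that the prime power `q` divides `N_m`. Let `q`, a power of a
prime `p ≠ 3`, divide at least two terms. Modulo `q` there is a square root of `8` such that the unit `β = (3 + √8) ^ 2`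
satisfies `β ^ m = -2` or `β ^ m = -1/2` for all these `m`. So they lie in two residue classes modulo the order
`r ≤ 2 X` of `β`, and `c(q) - 1 ≤ 4 X / r`. The group generated by `β` contains `-2`. By the pigeonhole principle `q` divides
one of the numbers `T(a, c) = 4 ^ c + 1 - (-2) ^ c (β ^ a + β ^ (-a))`, `0 ≤ a, c ≤ √r`, not both zero. The logarithm of `|T(a, c)|`
is at most `7 h`, `h = max (a, c)`, and `c(q) - 1 ≤ 4 X / h ^ 2`. So the sum over `q` is at most
`∑ (4 X / h ^ 2) (7 h)`, taken over all `a, c ≤ √(2 X)`, which is `O(X ^ (3 / 2))`.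
-/

set_option autoImplicit false

open Finset

namespace Pool.Agent.Results.MP_f53aaa_nt.DistinctPrimes

/-- the solutions `(d_m, b_m)` of `d ^ 2 - 8 b ^ 2 = 1` in natural numbers -/
def sol : ℕ → ℕ × ℕ
  | 0 => (1, 0)
  | m + 1 => (3 * (sol m).1 + 8 * (sol m).2, (sol m).1 + 3 * (sol m).2)

/-- `N_m = 8 d_m ^ 2 + 1` -/
def N (m : ℕ) : ℕ := 8 * (sol m).1 ^ 2 + 1

theorem sol_eq (m : ℕ) : sol m = Pool.Agent.K9h50.PG.sol m := by
  induction m with
  | zero => rfl
  | succ m ih => rw [sol, Pool.Agent.K9h50.PG.sol, ih]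

theorem N_eq : N = Pool.Agent.K9h50.PG.N := by
  funext m
  rw [N, Pool.Agent.K9h50.PG.N, sol_eq]

/-- **The least common multiple and the prime divisors of the first numbers `64 b ^ 2 + 9 = 8 d ^ 2 + 1`.** -/
theorem result :
    -- the numbers `N_m`
    (∀ m : ℕ, ((sol m).1 : ℝ) + ((sol m).2 : ℝ) * √8 = (3 + √8) ^ m ∧ N m = 64 * (sol m).2 ^ 2 + 9 ∧
      ((3 + √8) ^ m) ^ 2 ≤ (N m : ℝ)) ∧
    -- the least common multiple
    (∀ X : ℕ, |Real.log ((Icc 1 X).lcm N : ℕ) - (X : ℝ) ^ 2 * Real.log (3 + √8)| ≤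
      170 * (X : ℝ) ^ (3 / 2 : ℝ)) ∧
    -- distinct prime divisors `f m` of nearly all terms
    (∀ X : ℕ, ∃ E : Finset ℕ, (E.card : ℝ) ≤ 16 * (X : ℝ) ^ (3 / 4 : ℝ) ∧
      ∃ f : ℕ → ℕ, (∀ m ∈ Icc 1 X \ E, (f m).Prime ∧ f m ∣ N m) ∧ Set.InjOn f ↑(Icc 1 X \ E)) := by
  refine ⟨fun m => ⟨?_, ?_, ?_⟩, fun X => ?_, fun X => ?_⟩
  · rw [sol_eq]
    exact Pool.Agent.K9h50.PG.sol_real m
  · rw [N_eq, sol_eq]
    exact Pool.Agent.K9h50.PG.N_eq m
  · rw [N_eq]
    exact (Pool.Agent.K9h50.PG.N_ge m).1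
  · rw [N_eq]
    exact Pool.Agent.K9h50.PG.lcm_asymp X
  · rw [N_eq]
    exact Pool.Agent.K9h50.PG.distinct X

end Pool.Agent.Results.MP_f53aaa_nt.DistinctPrimes
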