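import Pool.Agent.K9h30.LP.Main

/-!
# The numbers `64 b ^ 2 + 9 = 8 d ^ 2 + 1`: large prime powers

The numbers of the problem are `N_m = 8 d_m ^ 2 + 1 = 64 b_m ^ 2 + 9` with `d_m + b_m √8 = (3 + √8) ^ m`; the admissible
primes are the primes among them, and `log N_m` is about `2 m log (3 + √8)`. We prove that nearly all terms are made of
prime powers which are larger than a constant times `m ^ 2`, with primes larger than a constant times `m log m`:

* for all `X`, `Y`, `Z ≥ 0` the product of the exact prime powers `p ^ v` of `N_m` (`v` is the exponent of `p` in `N_m`)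
  with `p > Z` and `p ^ v > Y` is `N_m / A_m` where `∑_{m ≤ X} log A_m ≤ 7 X π(Z) + 6 Y + 170 X ^ (3 / 2)`;
* for every `ε > 0` there is `δ > 0` such that for all large `X` and for all but at most `ε X` of the `m ≤ X` the
  product of the exact prime powers `p ^ v` of `N_m` with `p > δ X log X` and `p ^ v > δ X ^ 2` is at least
  `N_m ^ (1 - ε)`. For large `X` these are the primes larger than `δ X ^ 2` and the powers `p ^ v`, `v ≥ 2`, of primes
  `p > δ X log X`;
* for every function `f` which tends to zero the set of the `m` for which `N_m` has a prime divisor `p > f(m) m log m` with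
  `p ^ v > f(m) m ^ 2` has density one.

Proof. The sum of `log N_m`, `m ≤ X`, exceeds the logarithm of the least common multiple `L` of these numbers by at most
`170 X ^ (3 / 2)` (`Pool.Agent.K9h50.PG.sum_log`, by helper50, from the pigeonhole principle in the group generated by
the unit `(3 + √8) ^ 2` modulo a prime power, which contains `-2`). For every prime `p` the exact power of `p` in `L` is
that of one of the terms. So the sum of the `log A_m` is at most `170 X ^ (3 / 2)` plus the contribution of the prime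
powers of `L` itself with `p ≤ Z` or `p ^ v ≤ Y`, which is at most `π(Z) log N_X + ψ(Y)`, and the bounds of Chebyshev apply.
-/

set_option autoImplicit false

open Finset

namespace Pool.Agent.Results.MP_f53aaa_nt.LargePrimePowers

/-- the solutions `(d_m, b_m)` of `d ^ 2 - 8 b ^ 2 = 1` in natural numbers -/
def sol : ℕ → ℕ × ℕ
  | 0 => (1, 0)
  | m + 1 => (3 * (sol m).1 + 8 * (sol m).2, (sol m).1 + 3 * (sol m).2)

/-- `N_m = 8 d_m ^ 2 + 1` -/
def N (m : ℕ) : ℕ := 8 * (sol m).1 ^ 2 + 1

open scoped Classical in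
/-- the product of the `p ^ v`, where `p` runs through the prime divisors of `n` and `v` is the exponent of `p` in `n`,
with `p > Z` and `p ^ v > Y` -/
noncomputable def large (n : ℕ) (Y Z : ℝ) : ℕ :=
  ∏ p ∈ n.primeFactors.filter (fun p : ℕ => Z < (p : ℝ) ∧ Y < ((p ^ n.factorization p : ℕ) : ℝ)),
    p ^ n.factorization p

theorem sol_eq (m : ℕ) : sol m = Pool.Agent.K9h50.PG.sol m := by
  induction m with
  | zero => rfl
  | succ m ih => rw [sol, Pool.Agent.K9h50.PG.sol, ih]

theorem N_eq : N = Pool.Agent.K9h50.PG.N := by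
  funext m
  rw [N, Pool.Agent.K9h50.PG.N, sol_eq]

/-- **Nearly all of the numbers `64 b ^ 2 + 9 = 8 d ^ 2 + 1` are made of large prime powers.** -/
theorem result :
    -- the numbers `N_m`
    (∀ m : ℕ, ((sol m).1 : ℝ) + ((sol m).2 : ℝ) * √8 = (3 + √8) ^ m ∧ N m = 64 * (sol m).2 ^ 2 + 9) ∧
    -- the sum inequality
    (∀ (X : ℕ) (Y Z : ℝ), 0 ≤ Y → 0 ≤ Z →
      ∑ m ∈ Icc 1 X, Real.log ((N m : ℝ) / large (N m) Y Z) ≤
        7 * X * Nat.primeCounting ⌊Z⌋₊ + 6 * Y + 170 * (X : ℝ) ^ (3 / 2 : ℝ)) ∧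
    -- nearly all of `N_m`, for all but at most `ε X` of the `m ≤ X`
    (∀ ε : ℝ, 0 < ε → ∃ δ : ℝ, 0 < δ ∧ ∃ X₀ : ℕ, ∀ X : ℕ, X₀ ≤ X →
      ({m ∈ Icc 1 X | (large (N m) (δ * X ^ 2) (δ * X * Real.log X) : ℝ) <
        (N m : ℝ) ^ (1 - ε)}.card : ℝ) ≤ ε * X) ∧
    -- density one
    (∀ f : ℕ → ℝ, Filter.Tendsto f Filter.atTop (nhds 0) →
      Filter.Tendsto (fun X : ℕ => (Set.ncard {m : ℕ | 1 ≤ m ∧ m ≤ X ∧ ¬ ∃ p : ℕ, p.Prime ∧ p ∣ N m ∧
        f m * m * Real.log m < p ∧ f m * m ^ 2 < ((p ^ (N m).factorization p : ℕ) : ℝ)} : ℝ) / X)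
        Filter.atTop (nhds 0)) := by
  rw [N_eq]
  refine ⟨fun m => ⟨?_, ?_⟩, fun X Y Z hY hZ => ?_, fun ε hε => ?_, fun f hf => ?_⟩
  · rw [sol_eq]
    exact Pool.Agent.K9h50.PG.sol_real m
  · rw [sol_eq]
    exact Pool.Agent.K9h50.PG.N_eq m
  · have h := Pool.Agent.K9h30.LP.main_sum X Y Z hY hZ
    simp only [Pool.Agent.K9h30.LP.log_part_eq] at h
    exact h
  · exact Pool.Agent.K9h30.LP.exceptions ε hε
  · exact Pool.Agent.K9h30.LP.density f hf

end Pool.Agent.Results.MP_f53aaa_nt.LargePrimePowers
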