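import Mathlib
import Pool.Agent.K9h50.PG.TotE
import Pool.Agent.K9h50.PG.P13

/-!
# The numbers `64 b ^ 2 + 9 = 8 d ^ 2 + 1` with `φ(N)` very near `N`

The numbers of the problem are `N_m = 8 d_m ^ 2 + 1 = 64 b_m ^ 2 + 9` with `d_m + b_m √8 = (3 + √8) ^ m`; the admissible
primes are the primes among them, that is, the `N_m` with `φ(N_m) = N_m - 1`. We prove that every value of `φ(N_m) / N_m`
is nearly taken for a positive proportion of all `m`: for all `a`, `L ≥ 1` and `ε > 0` there is a positive proportion of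
numbers `m` with `m ≡ a mod L` such that `N_a` divides `N_m`, the sum of `1 / p` over the prime divisors `p` of `N_m` which
do not divide `N_a` is at most `ε`, and `φ(N_m) / N_m ≥ (1 - ε) φ(N_a) / N_a`. Since `N_13 = 160459573394847767113` is prime,
`φ(N_m) ≥ (1 - 10 ^ (-20)) N_m` for a positive proportion of all `m`.

Proof. Let `β = (3 + √8) ^ 2`, let `L'` be divisible by all `p - 1` with `p ≤ P`, and `m = a + L' s`. If a prime `p ≠ 3`
divides `N_m` then `β ^ m` is `-2` or `-1/2` modulo `p`. If `t` is the order of `β ^ L'` modulo `p` then `p` divides the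
nonzero number `T = 4 ^ t + 1 - (-2) ^ t (β ^ (a t) + β ^ (- a t))`, `|T| ≤ 864 ^ ((a + 1) t)`. So there are only `O(t)` such
primes for each `t`, all of them `≡ 1 mod t`, and the sum of their inverses is `O(t ^ (-1/2))`; each of them divides
`N_(a + L' s)` only for `s` in two classes modulo `t`. If `t` is small then `p ≤ P`, so `t = 1` and `N_m ≡ N_a mod p`, and
`p` divides `N_a`. So for `p ≤ 2 S` not dividing `N_a` the mean over `s ≤ S` of the sum of `1 / p` over `p ∣ N_m` is at most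
`∑ O(t ^ (-3/2))`, the sum over large `t`. The primes `p > 2 S` are at most `O(S / log S)` for each `N_m`.
-/

set_option autoImplicit false

open Finset

namespace Pool.Agent.Results.MP_f53aaa_nt.TotientNearOne

/-- the solutions `(d_m, b_m)` of `d ^ 2 - 8 b ^ 2 = 1` in natural numbers -/
def sol : ℕ → ℕ × ℕ
  | 0 => (1, 0)
  | m + 1 => (3 * (sol m).1 + 8 * (sol m).2, (sol m).1 + 3 * (sol m).2)

/-- `N_m = 8 d_m ^ 2 + 1` -/
def N (m : ℕ) : ℕ := 8 * (sol m).1 ^ 2 + 1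

theorem sol_eq (m : ℕ) : sol m = Pool.Agent.K9h50.PG.sol m := by
  induction m with
  | zero => rfl
  | succ m ih => rw [sol, Pool.Agent.K9h50.PG.sol, ih]

theorem N_eq : N = Pool.Agent.K9h50.PG.N := by
  funext m
  rw [N, Pool.Agent.K9h50.PG.N, sol_eq]

/-- **Totients of the numbers `64 b ^ 2 + 9 = 8 d ^ 2 + 1`.** -/
theorem result :
    -- the numbers `N_m`
    (∀ m : ℕ, ((sol m).1 : ℝ) + ((sol m).2 : ℝ) * √8 = (3 + √8) ^ m ∧ N m = 64 * (sol m).2 ^ 2 + 9) ∧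
    -- every value of `φ(N_m) / N_m` is nearly taken for a positive proportion of all `m`
    (∀ (a L : ℕ) (ε : ℝ), 0 < L → 0 < ε → ∃ c : ℝ, 0 < c ∧ ∃ X₀ : ℕ, ∀ X : ℕ, X₀ ≤ X →
      c * X ≤ (Nat.card {m : ℕ // 1 ≤ m ∧ m ≤ X ∧ m ≡ a [MOD L] ∧ N a ∣ N m ∧
        ∑ p ∈ (N m).primeFactors.filter (fun p => ¬ p ∣ N a), (1 : ℝ) / p ≤ ε ∧
        (1 - ε) * ((Nat.totient (N a) : ℝ) / N a) ≤ (Nat.totient (N m) : ℝ) / N m} : ℝ)) ∧
    -- `φ(N_m)` is very near `N_m` for a positive proportion of all `m`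
    (∃ c : ℝ, 0 < c ∧ ∃ X₀ : ℕ, ∀ X : ℕ, X₀ ≤ X →
      c * X ≤ (Nat.card {m : ℕ // 1 ≤ m ∧ m ≤ X ∧
        (1 - 1 / 10 ^ 20) * (N m : ℝ) ≤ (Nat.totient (N m) : ℝ)} : ℝ)) := by
  classical
  have main : ∀ (a L : ℕ) (ε : ℝ), 0 < L → 0 < ε → ∃ c : ℝ, 0 < c ∧ ∃ X₀ : ℕ, ∀ X : ℕ, X₀ ≤ X →
      c * X ≤ (Nat.card {m : ℕ // 1 ≤ m ∧ m ≤ X ∧ m ≡ a [MOD L] ∧ N a ∣ N m ∧
        ∑ p ∈ (N m).primeFactors.filter (fun p => ¬ p ∣ N a), (1 : ℝ) / p ≤ ε ∧
        (1 - ε) * ((Nat.totient (N a) : ℝ) / N a) ≤ (Nat.totient (N m) : ℝ) / N m} : ℝ) := by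
    intro a L ε hL hε
    obtain ⟨c, hc, X₀, h⟩ := Pool.Agent.K9h50.PG.tot_main2 a L hL ε hε
    refine ⟨c, hc, X₀, fun X hX => ?_⟩
    rw [Nat.subtype_card ((Icc 1 X).filter (Pool.Agent.K9h50.PG.G a L ε))]
    · exact h X hX
    · intro m
      rw [mem_filter, mem_Icc, Pool.Agent.K9h50.PG.G, and_assoc, N_eq]
  refine ⟨fun m => ⟨?_, ?_⟩, main, ?_⟩
  · rw [sol_eq]
    exact Pool.Agent.K9h50.PG.sol_real m
  · rw [N_eq, sol_eq]
    exact Pool.Agent.K9h50.PG.N_eq m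
  · obtain ⟨c, hc, X₀, h⟩ := main 13 1 (3 / 10 ^ 21) one_pos (by norm_num)
    refine ⟨c, hc, X₀, fun X hX => (h X hX).trans ?_⟩
    have hN : N 13 = 160459573394847767113 := by norm_num [N, sol]
    have hfin : Finite {m : ℕ // 1 ≤ m ∧ m ≤ X ∧
        (1 - 1 / 10 ^ 20) * (N m : ℝ) ≤ (Nat.totient (N m) : ℝ)} := by
      apply Finite.of_injective (β := Fin (X + 1)) (fun m => ⟨m.1, by have := m.2.2.1; omega⟩)
      intro x y hxy
      simp only [Fin.mk.injEq] at hxy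
      exact Subtype.ext hxy
    have himp : ∀ m : ℕ, (1 ≤ m ∧ m ≤ X ∧ m ≡ 13 [MOD 1] ∧ N 13 ∣ N m ∧
        ∑ p ∈ (N m).primeFactors.filter (fun p => ¬ p ∣ N 13), (1 : ℝ) / p ≤ 3 / 10 ^ 21 ∧
        (1 - 3 / 10 ^ 21) * ((Nat.totient (N 13) : ℝ) / N 13) ≤ (Nat.totient (N m) : ℝ) / N m) →
        (1 ≤ m ∧ m ≤ X ∧ (1 - 1 / 10 ^ 20) * (N m : ℝ) ≤ (Nat.totient (N m) : ℝ)) := by
      rintro m ⟨h3, h4, -, -, -, h1⟩
      refine ⟨h3, h4, ?_⟩
      rw [hN, Nat.totient_prime Pool.Agent.K9h50.PG.prime13] at h1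
      have h2 : (0 : ℝ) < N m := by
        have : 0 < N m := by unfold N; omega
        exact_mod_cast this
      rw [le_div_iff₀ h2] at h1
      refine le_trans (mul_le_mul_of_nonneg_right ?_ h2.le) h1
      norm_num
    have hle := Nat.card_le_card_of_injective
      (fun m : {m : ℕ // 1 ≤ m ∧ m ≤ X ∧ m ≡ 13 [MOD 1] ∧ N 13 ∣ N m ∧
        ∑ p ∈ (N m).primeFactors.filter (fun p => ¬ p ∣ N 13), (1 : ℝ) / p ≤ 3 / 10 ^ 21 ∧
        (1 - 3 / 10 ^ 21) * ((Nat.totient (N 13) : ℝ) / N 13) ≤ (Nat.totient (N m) : ℝ) / N m} =>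
        (⟨m.1, himp m.1 m.2⟩ : {m : ℕ // 1 ≤ m ∧ m ≤ X ∧
          (1 - 1 / 10 ^ 20) * (N m : ℝ) ≤ (Nat.totient (N m) : ℝ)}))
      (fun x y hxy => by
        simpa [Subtype.ext_iff] using hxy)
    exact_mod_cast hle

end Pool.Agent.Results.MP_f53aaa_nt.TotientNearOne
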